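import Mathlib

open Finset

namespace Pool.Agent.Lib.MP_37e900_nt

variable {p : ℕ} [hp : Fact p.Prime]

/-- `Z p e x`: the `p`-adic norm of `x` is at most `p^{-e}`. -/
def Z (p e : ℕ) (x : ℚ) : Prop := padicNorm p x ≤ ((p : ℚ)⁻¹) ^ e

lemma pinv_pos : 0 < ((p : ℚ)⁻¹) := by
  have : 0 < p := hp.out.pos
  positivity

lemma pinv_le_one : ((p : ℚ)⁻¹) ≤ 1 := by
  have h1 : (1 : ℚ) ≤ p := by exact_mod_cast hp.out.one_lt.le
  exact inv_le_one_of_one_le₀ h1

lemma Z_mono {e f : ℕ} {x : ℚ} (hef : f ≤ e) (h : Z p e x) : Z p f x :=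
  le_trans h (pow_le_pow_of_le_one pinv_pos.le pinv_le_one hef)

lemma Z_add {e : ℕ} {x y : ℚ} (hx : Z p e x) (hy : Z p e y) : Z p e (x + y) :=
  le_trans padicNorm.nonarchimedean (max_le hx hy)

omit hp in
lemma Z_neg {e : ℕ} {x : ℚ} (hx : Z p e x) : Z p e (-x) := by
  unfold Z
  rw [padicNorm.neg]
  exact hx

lemma Z_sub {e : ℕ} {x y : ℚ} (hx : Z p e x) (hy : Z p e y) : Z p e (x - y) := by
  rw [sub_eq_add_neg]
  exact Z_add hx (Z_neg hy)

lemma Z_mul {e f : ℕ} {x y : ℚ} (hx : Z p e x) (hy : Z p f y) : Z p (e + f) (x * y) := by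
  unfold Z at *
  rw [padicNorm.mul, pow_add]
  exact mul_le_mul hx hy (padicNorm.nonneg _) (by have := pinv_pos (p := p); positivity)

lemma Z_nat (n : ℕ) : Z p 0 (n : ℚ) := by
  unfold Z
  rw [pow_zero]
  exact padicNorm.of_nat n

lemma Z_int (n : ℤ) : Z p 0 (n : ℚ) := by
  unfold Z
  rw [pow_zero]
  exact padicNorm.of_int n

lemma Z_zero (e : ℕ) : Z p e 0 := by
  unfold Z
  rw [padicNorm.zero]
  have := pinv_pos (p := p)
  positivity

lemma Z_p : Z p 1 (p : ℚ) := by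
  unfold Z
  rw [padicNorm.padicNorm_p_of_prime, pow_one]

lemma Z_mul0 {e : ℕ} {x y : ℚ} (hx : Z p e x) (hy : Z p 0 y) : Z p e (x * y) := by
  simpa using Z_mul hx hy

lemma Z_mul0' {e : ℕ} {x y : ℚ} (hx : Z p 0 x) (hy : Z p e y) : Z p e (x * y) := by
  simpa using Z_mul hx hy

/-- if `x` has norm one and `y` has norm less than one, then `x+y` has norm one -/
lemma norm_add_one {x y : ℚ} (hx : padicNorm p x = 1) (hy : Z p 1 y) :
    padicNorm p (x + y) = 1 := by
  have hy' : padicNorm p y < 1 := by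
    unfold Z at hy
    rw [pow_one] at hy
    have h1 : (1 : ℚ) < p := by exact_mod_cast hp.out.one_lt
    exact lt_of_le_of_lt hy (inv_lt_one_of_one_lt₀ h1)
  have hne : padicNorm p x ≠ padicNorm p y := by
    rw [hx]; exact hy'.ne'
  rw [padicNorm.add_eq_max_of_ne hne, hx]
  exact max_eq_left hy'.le

lemma Z_inv_of_norm_one {x : ℚ} (hx : padicNorm p x = 1) : Z p 0 x⁻¹ := by
  unfold Z
  have h0 : x ≠ 0 := by
    rintro rfl
    rw [padicNorm.zero] at hx
    exact one_ne_zero hx.symm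
  have : padicNorm p (x * x⁻¹) = 1 := by rw [mul_inv_cancel₀ h0, padicNorm.one]
  rw [padicNorm.mul, hx, one_mul] at this
  rw [this, pow_zero]

/-- Triples `(a,b,c)` that look like `(A, A + pB, A + 3pB)` modulo `p^2`. -/
def W (p : ℕ) (a b c : ℚ) : Prop :=
  Z p 0 a ∧ Z p 1 (b - a) ∧ Z p 2 (2 * a - 3 * b + c)

lemma W_const {a : ℚ} (ha : Z p 0 a) : W p a a a := by
  refine ⟨ha, ?_, ?_⟩
  · rw [sub_self]; exact Z_zero 1
  · have : 2 * a - 3 * a + a = 0 := by ring
    rw [this]; exact Z_zero 2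

lemma W_lin {a : ℚ} (ha : Z p 0 a) : W p (a - 0) (a - p) (a - 3 * p) := by
  refine ⟨by simpa using ha, ?_, ?_⟩
  · have : a - p - (a - 0) = -(p : ℚ) := by ring
    rw [this]; exact Z_neg Z_p
  · have : 2 * (a - 0) - 3 * (a - p) + (a - 3 * p) = 0 := by ring
    rw [this]; exact Z_zero 2

lemma W_add {a b c a' b' c' : ℚ} (h : W p a b c) (h' : W p a' b' c') :
    W p (a + a') (b + b') (c + c') := by
  obtain ⟨h1, h2, h3⟩ := h
  obtain ⟨h1', h2', h3'⟩ := h'
  refine ⟨Z_add h1 h1', ?_, ?_⟩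
  · have : b + b' - (a + a') = (b - a) + (b' - a') := by ring
    rw [this]; exact Z_add h2 h2'
  · have : 2 * (a + a') - 3 * (b + b') + (c + c')
        = (2 * a - 3 * b + c) + (2 * a' - 3 * b' + c') := by ring
    rw [this]; exact Z_add h3 h3'

lemma W_mul {a b c a' b' c' : ℚ} (h : W p a b c) (h' : W p a' b' c') :
    W p (a * a') (b * b') (c * c') := by
  obtain ⟨h1, h2, h3⟩ := h
  obtain ⟨h1', h2', h3'⟩ := h'
  have hb : Z p 0 b := by
    have : b = a + (b - a) := by ring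
    rw [this]; exact Z_add h1 (Z_mono (by norm_num) h2)
  have hb' : Z p 0 b' := by
    have : b' = a' + (b' - a') := by ring
    rw [this]; exact Z_add h1' (Z_mono (by norm_num) h2')
  have h3n : Z p 0 (3 : ℚ) := by exact_mod_cast Z_nat (p := p) 3
  have h6n : Z p 0 (6 : ℚ) := by exact_mod_cast Z_nat (p := p) 6
  have hc' : Z p 0 c' := by
    have : c' = a' + 3 * (b' - a') + (2 * a' - 3 * b' + c') := by ring
    rw [this]
    exact Z_add (Z_add h1' (Z_mul0' h3n (Z_mono (by norm_num) h2')))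
      (Z_mono (by norm_num) h3')
  refine ⟨Z_mul h1 h1', ?_, ?_⟩
  · have : b * b' - a * a' = (b - a) * b' + a * (b' - a') := by ring
    rw [this]; exact Z_add (Z_mul0 h2 hb') (Z_mul0' h1 h2')
  · have : 2 * (a * a') - 3 * (b * b') + c * c'
        = 6 * ((b - a) * (b' - a')) + (2 * a - 3 * b + c) * c'
          + (a + 3 * (b - a)) * (2 * a' - 3 * b' + c') := by ring
    rw [this]
    exact Z_add (Z_add (Z_mul0' h6n (Z_mul h2 h2')) (Z_mul0 h3 hc'))
      (Z_mul0' (Z_add h1 (Z_mul0' h3n (Z_mono (by norm_num) h2))) h3')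

lemma W_inv {a b c : ℚ} (h : W p a b c) (ha : padicNorm p a = 1) :
    W p a⁻¹ b⁻¹ c⁻¹ := by
  obtain ⟨h1, h2, h3⟩ := h
  have h3n : Z p 0 (3 : ℚ) := by exact_mod_cast Z_nat (p := p) 3
  have h2n : Z p 0 (2 : ℚ) := by exact_mod_cast Z_nat (p := p) 2
  have h6n : Z p 0 (6 : ℚ) := by exact_mod_cast Z_nat (p := p) 6
  have hb : padicNorm p b = 1 := by
    have : b = a + (b - a) := by ring
    rw [this]; exact norm_add_one ha h2
  have hc : padicNorm p c = 1 := by
    have : c = a + (3 * (b - a) + (2 * a - 3 * b + c)) := by ring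
    rw [this]
    exact norm_add_one ha (Z_add (Z_mul0' h3n h2) (Z_mono (by norm_num) h3))
  have ne : ∀ {x : ℚ}, padicNorm p x = 1 → x ≠ 0 := by
    intro x hx h0
    rw [h0, padicNorm.zero] at hx
    exact one_ne_zero hx.symm
  have a0 := ne ha
  have b0 := ne hb
  have c0 := ne hc
  have ia := Z_inv_of_norm_one ha
  have ib := Z_inv_of_norm_one hb
  have ic := Z_inv_of_norm_one hc
  refine ⟨ia, ?_, ?_⟩
  · have : b⁻¹ - a⁻¹ = -((b - a) * (a⁻¹ * b⁻¹)) := by
      field_simp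
      ring
    rw [this]
    exact Z_neg (Z_mul0 h2 (Z_mul0 ia ib))
  · have : 2 * a⁻¹ - 3 * b⁻¹ + c⁻¹
        = (6 * ((b - a) * (b - a)) + (2 * (b - a) - a) * (2 * a - 3 * b + c))
          * (a⁻¹ * b⁻¹ * c⁻¹) := by
      field_simp
      ring
    rw [this]
    have e1 : Z p 2 (6 * ((b - a) * (b - a))) := Z_mul0' h6n (Z_mul h2 h2)
    have e2 : Z p 0 (2 * (b - a) - a) :=
      Z_sub (Z_mul0' h2n (Z_mono (by norm_num) h2)) h1
    have e3 : Z p 2 ((2 * (b - a) - a) * (2 * a - 3 * b + c)) := Z_mul0' e2 h3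
    have e4 : Z p 0 (a⁻¹ * b⁻¹) := Z_mul0 ia ib
    have e5 : Z p 0 (a⁻¹ * b⁻¹ * c⁻¹) := Z_mul0 e4 ic
    exact Z_mul0 (Z_add e1 e3) e5

lemma W_prod {ι : Type*} (s : Finset ι) (f g h : ι → ℚ)
    (hW : ∀ i ∈ s, W p (f i) (g i) (h i)) :
    W p (∏ i ∈ s, f i) (∏ i ∈ s, g i) (∏ i ∈ s, h i) := by
  classical
  induction s using Finset.induction_on with
  | empty =>
    simp only [prod_empty]
    exact W_const (by exact_mod_cast Z_nat (p := p) 1)
  | insert a s ha ih =>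
    rw [prod_insert ha, prod_insert ha, prod_insert ha]
    exact W_mul (hW a (mem_insert_self a s)) (ih fun i hi => hW i (mem_insert_of_mem hi))

lemma W_sum {ι : Type*} (s : Finset ι) (f g h : ι → ℚ)
    (hW : ∀ i ∈ s, W p (f i) (g i) (h i)) :
    W p (∑ i ∈ s, f i) (∑ i ∈ s, g i) (∑ i ∈ s, h i) := by
  classical
  induction s using Finset.induction_on with
  | empty =>
    simp only [sum_empty]
    exact W_const (Z_zero 0)
  | insert a s ha ih =>
    rw [sum_insert ha, sum_insert ha, sum_insert ha]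
    exact W_add (hW a (mem_insert_self a s)) (ih fun i hi => hW i (mem_insert_of_mem hi))

/-- the numerator of a rational number of norm at most `p^{-2}` is divisible by `p^2` -/
lemma num_dvd {x : ℚ} (hx : Z p 2 x) : (p : ℤ) ^ 2 ∣ x.num := by
  have h1 : ((p ^ 2 : ℕ) : ℤ) ∣ x.num := by
    rw [padicNorm.dvd_iff_norm_le]
    have h2 : (x.num : ℚ) = x * (x.den : ℚ) := (Rat.mul_den_eq_num x).symm
    rw [h2]
    have h3 : Z p 2 (x * (x.den : ℚ)) := Z_mul0 hx (Z_nat x.den)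
    unfold Z at h3
    refine h3.trans (le_of_eq ?_)
    rw [inv_pow, zpow_neg]
    norm_cast
  exact_mod_cast h1

end Pool.Agent.Lib.MP_37e900_nt
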