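import Mathlib

open Finset

namespace Pool.Agent.Lib.MP_37e900_nt

/-- `P x m = x (x-1) ⋯ (x-m+1)`. -/
def P (x : ℚ) (m : ℕ) : ℚ := ∏ i ∈ range m, (x - i)

/-- `Pi h k = ∏_{i=1}^k (3i-1-2h)`. -/
def Pi (x : ℚ) (k : ℕ) : ℚ := ∏ i ∈ range k, (3 * (i : ℚ) + 2 - 2 * x)

lemma P_succ (x : ℚ) (m : ℕ) : P x (m + 1) = P x m * (x - m) := by
  simp [P, prod_range_succ]

lemma P_shift (x : ℚ) (m : ℕ) : P (x + 1) (m + 1) = (x + 1) * P x m := by
  unfold P
  rw [prod_range_succ']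
  push_cast
  rw [mul_comm]
  congr 1
  · ring
  · apply prod_congr rfl
    intro i _
    ring

lemma P_rel (x : ℚ) (m : ℕ) :
    (x + 1) * (x + 2) * (x + 3) * P x m
      = P (x + 3) m * (x + 3 - m) * (x + 2 - m) * (x + 1 - m) := by
  have h1 : P (x + 3) (m + 3) = (x + 3) * ((x + 2) * ((x + 1) * P x m)) := by
    have e3 : x + 3 = x + 2 + 1 := by ring
    have e2 : x + 2 = x + 1 + 1 := by ring
    rw [e3, P_shift (x + 2) (m + 2), e2, P_shift (x + 1) (m + 1), P_shift x m]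
  have h2 : P (x + 3) (m + 3) = P (x + 3) m * (x + 3 - m) * (x + 2 - m) * (x + 1 - m) := by
    rw [P_succ, P_succ, P_succ]
    push_cast
    ring
  rw [← h2, h1]
  ring

lemma P_eq_zero (h m : ℕ) (hm : h < m) : P (h : ℚ) m = 0 := by
  unfold P
  apply prod_eq_zero (mem_range.mpr hm)
  simp

lemma Pi_succ (x : ℚ) (k : ℕ) : Pi x (k + 1) = Pi x k * (3 * (k : ℚ) + 2 - 2 * x) := by
  simp [Pi, prod_range_succ]

lemma Pi_shift (x : ℚ) (k : ℕ) :
    Pi (x + 3) (k + 2) = (2 * x + 4) * (2 * x + 1) * Pi x k := by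
  unfold Pi
  rw [prod_range_succ', prod_range_succ']
  have : ∏ i ∈ range k, (3 * ((i + 1 + 1 : ℕ) : ℚ) + 2 - 2 * (x + 3))
      = ∏ i ∈ range k, (3 * (i : ℚ) + 2 - 2 * x) := by
    apply prod_congr rfl
    intro i _
    push_cast
    ring
  rw [this]
  push_cast
  ring

/-- the summand -/
def F (x : ℚ) (k : ℕ) : ℚ := P x (2 * k) / ((k.factorial : ℚ) * Pi x k) * (2 * k * x / (x - k))

/-- the certificate polynomial -/
def f (x k : ℚ) : ℚ :=
  (x + 1) * (x + 3) ^ 2 / (2 * x * (x + 2) * (2 * x + 1))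
    * (5 * x ^ 3 + 12 * x ^ 2 + 8 * x + 2 - 2 * (9 * x ^ 2 + 15 * x + 5) * k
      + 3 * (7 * x + 6) * k ^ 2 - 8 * k ^ 3)

/-- the certificate -/
def G (x : ℚ) (k : ℕ) : ℚ :=
  P (x + 3) (2 * (k + 1)) / ((x + 1) * (x + 2) * (x + 3) * (k.factorial : ℚ) * Pi x k)
    * (2 * x * k * f x k / ((x + 2 - k) * (x + 1 - k) * (x - k)))

/-- ratio -/
def rho (x : ℚ) : ℚ := -((x + 3) ^ 2 * (x + 1)) / (2 * x * (x + 2) * (2 * x + 1))

lemma rat_id (x j : ℚ)
    (n1 : (3 * (j : ℚ) + 2 - 2 * x) ≠ 0)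
    (n3 : x - 1 - j ≠ 0)
    (n4 : x - j ≠ 0)
    (n5 : x + 1 - j ≠ 0)
    (n6 : x + 2 - j ≠ 0)
    (n7 : x ≠ 0)
    (n8 : x + 1 ≠ 0)
    (n9 : x + 2 ≠ 0)
    (n10 : x + 3 ≠ 0)
    (n11 : 2 * x + 1 ≠ 0) :
    (3 * j - 1 - 2 * x) * (x + 3) / ((2 * x + 4) * (2 * x + 1) * (x + 2 - j))
      - rho x * ((x + 1 - 2 * j) * (x - 2 * j) * (x - 1 - 2 * j) * x
        / ((x + 1) * (x + 2) * (x + 3) * (3 * j + 2 - 2 * x) * (x - 1 - j)))
    = (x + 1 - 2 * j) * (x - 2 * j) * x * f x (j + 1)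
        / ((x + 1) * (x + 2) * (x + 3) * (3 * j + 2 - 2 * x) * (x + 1 - j) * (x - j) * (x - 1 - j))
      - x * j * f x j / ((x + 1) * (x + 2) * (x + 3) * (x + 2 - j) * (x + 1 - j) * (x - j)) := by
  have m5 : 2 * x + 4 ≠ 0 := by
    have : 2 * x + 4 = 2 * (x + 2) := by ring
    rw [this]; exact mul_ne_zero (by norm_num) n9
  unfold f rho
  rw [div_mul_div_comm, div_sub_div _ _ (by positivity) (by positivity)]
  field_simp
  ring

lemma step (x : ℚ) (j : ℕ) (hj : (2 : ℚ) * (j + 1) ≤ x + 3) (hx8 : 8 ≤ x) :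
    F (x + 3) (j + 1) - rho x * F x (j + 1) = G x (j + 1) - G x j := by
  have hx : 0 < x := by linarith
  -- nonvanishing facts
  have n1 : (3 * (j : ℚ) + 2 - 2 * x) ≠ 0 := by
    have : 3 * (j : ℚ) + 2 - 2 * x < 0 := by linarith
    exact this.ne
  have n2 : (3 * (j : ℚ) - 1 - 2 * x) ≠ 0 := by
    have : 3 * (j : ℚ) - 1 - 2 * x < 0 := by linarith
    exact this.ne
  have n3 : x - 1 - j ≠ 0 := by
    have : 0 < x - 1 - j := by linarith
    exact this.ne'
  have n4 : x - j ≠ 0 := by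
    have : 0 < x - j := by linarith
    exact this.ne'
  have n5 : x + 1 - j ≠ 0 := by
    have : 0 < x + 1 - j := by linarith
    exact this.ne'
  have n6 : x + 2 - j ≠ 0 := by
    have : 0 < x + 2 - j := by linarith
    exact this.ne'
  have n7 : x ≠ 0 := hx.ne'
  have n8 : x + 1 ≠ 0 := by positivity
  have n9 : x + 2 ≠ 0 := by positivity
  have n10 : x + 3 ≠ 0 := by positivity
  have n11 : 2 * x + 1 ≠ 0 := by positivity
  have n12 : (j : ℚ) + 1 ≠ 0 := by positivity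
  have n13 : (j.factorial : ℚ) ≠ 0 := by positivity
  have m5 : 2 * x + 4 ≠ 0 := by positivity
  have hPi : Pi x j ≠ 0 := by
    unfold Pi
    apply prod_ne_zero_iff.mpr
    intro i hi
    have hi' : (i : ℚ) + 1 ≤ j := by exact_mod_cast mem_range.mp hi
    have : 3 * (i : ℚ) + 2 - 2 * x < 0 := by linarith
    exact this.ne
  -- relations
  have hPx : P x (2 * (j + 1)) = P (x + 3) (2 * (j + 1)) * (x + 1 - 2 * j) * (x - 2 * j)
      * (x - 1 - 2 * j) / ((x + 1) * (x + 2) * (x + 3)) := by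
    have := P_rel x (2 * (j + 1))
    rw [eq_div_iff (by positivity)]
    push_cast at this
    linear_combination this
  have hD2 : P (x + 3) (2 * (j + 1 + 1))
      = P (x + 3) (2 * (j + 1)) * (x + 1 - 2 * j) * (x - 2 * j) := by
    have e : 2 * (j + 1 + 1) = 2 * (j + 1) + 1 + 1 := by ring
    rw [e, P_succ, P_succ]
    push_cast
    ring
  have hPi' : Pi (x + 3) (j + 1) = (2 * x + 4) * (2 * x + 1) * Pi x j / (3 * (j : ℚ) - 1 - 2 * x) := by
    rw [eq_div_iff n2]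
    have h1 := Pi_shift x j
    rw [Pi_succ (x + 3) (j + 1)] at h1
    push_cast at h1
    linear_combination h1
  have hPi2 : Pi x (j + 1) = Pi x j * (3 * (j : ℚ) + 2 - 2 * x) := Pi_succ x j
  have c1 : x + 3 - ((j + 1 : ℕ) : ℚ) = x + 2 - j := by push_cast; ring
  have c2 : x - ((j + 1 : ℕ) : ℚ) = x - 1 - j := by push_cast; ring
  have c3 : x + 2 - ((j + 1 : ℕ) : ℚ) = x + 1 - j := by push_cast; ring
  have c4 : x + 1 - ((j + 1 : ℕ) : ℚ) = x - j := by push_cast; ring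
  have e1 : F (x + 3) (j + 1) = (2 * P (x + 3) (2 * (j + 1)) / (j.factorial * Pi x j))
      * ((3 * j - 1 - 2 * x) * (x + 3) / ((2 * x + 4) * (2 * x + 1) * (x + 2 - j))) := by
    unfold F
    rw [hPi', Nat.factorial_succ, c1]
    generalize P (x + 3) (2 * (j + 1)) = D
    push_cast
    field_simp
  have e2 : F x (j + 1) = (2 * P (x + 3) (2 * (j + 1)) / (j.factorial * Pi x j))
      * ((x + 1 - 2 * j) * (x - 2 * j) * (x - 1 - 2 * j) * x
        / ((x + 1) * (x + 2) * (x + 3) * (3 * j + 2 - 2 * x) * (x - 1 - j))) := by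
    unfold F
    rw [hPx, hPi2, Nat.factorial_succ, c2]
    generalize P (x + 3) (2 * (j + 1)) = D
    push_cast
    field_simp
  have e3 : G x (j + 1) = (2 * P (x + 3) (2 * (j + 1)) / (j.factorial * Pi x j))
      * ((x + 1 - 2 * j) * (x - 2 * j) * x * f x (j + 1)
        / ((x + 1) * (x + 2) * (x + 3) * (3 * j + 2 - 2 * x) * (x + 1 - j) * (x - j)
          * (x - 1 - j))) := by
    unfold G
    rw [hD2, hPi2, Nat.factorial_succ, c2, c3, c4]
    generalize P (x + 3) (2 * (j + 1)) = D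
    push_cast
    generalize f x ((j : ℚ) + 1) = fj
    field_simp
  have e4 : G x j = (2 * P (x + 3) (2 * (j + 1)) / (j.factorial * Pi x j))
      * (x * j * f x j / ((x + 1) * (x + 2) * (x + 3) * (x + 2 - j) * (x + 1 - j) * (x - j))) := by
    unfold G
    generalize P (x + 3) (2 * (j + 1)) = D
    generalize f x (j : ℚ) = fj
    field_simp
  rw [e1, e2, e3, e4]
  have := rat_id x j n1 n3 n4 n5 n6 n7 n8 n9 n10 n11
  linear_combination (2 * P (x + 3) (2 * (j + 1)) / (j.factorial * Pi x j)) * this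

lemma F_eq_zero (h k : ℕ) (hk : h < 2 * k) : F (h : ℚ) k = 0 := by
  unfold F
  rw [P_eq_zero h (2 * k) hk]
  simp

/-- the terminating sum -/
def Nsum (h : ℕ) : ℚ := ∑ k ∈ range (h + 1), F (h : ℚ) k

lemma sum_F_eq (h K : ℕ) (hK : h < 2 * K) : ∑ k ∈ range K, F (h : ℚ) k = Nsum h := by
  unfold Nsum
  rcases le_total K (h + 1) with hle | hle
  · apply sum_subset (range_mono hle)
    intro k _ hk
    simp only [mem_range, not_lt] at hk
    exact F_eq_zero h k (by omega)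
  · symm
    apply sum_subset (range_mono hle)
    intro k _ hk
    simp only [mem_range, not_lt] at hk
    exact F_eq_zero h k (by omega)

lemma tele (h : ℕ) (hh : 8 ≤ h) (K : ℕ) (hK : 2 * K ≤ h + 3) :
    ∑ k ∈ range (K + 1), (F ((h : ℚ) + 3) k - rho h * F (h : ℚ) k) = G (h : ℚ) K := by
  induction K with
  | zero => simp [F, G]
  | succ K ih =>
    rw [sum_range_succ, ih (by omega)]
    have hj : (2 : ℚ) * ((K : ℚ) + 1) ≤ (h : ℚ) + 3 := by exact_mod_cast hK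
    have h8 : (8 : ℚ) ≤ (h : ℚ) := by exact_mod_cast hh
    have := step (h : ℚ) K hj h8
    rw [this]
    ring

lemma Nsum_rec (h : ℕ) (hh : 8 ≤ h) : Nsum (h + 3) = rho h * Nsum h := by
  obtain ⟨K, hK1, hK2⟩ : ∃ K, 2 * K ≤ h + 3 ∧ h + 3 < 2 * (K + 1) := ⟨(h + 3) / 2, by omega, by omega⟩
  have h1 := tele h hh K hK1
  rw [sum_sub_distrib, ← mul_sum] at h1
  have hcast : ((h + 3 : ℕ) : ℚ) = (h : ℚ) + 3 := by push_cast; ring
  have h2 : ∑ k ∈ range (K + 1), F ((h : ℚ) + 3) k = Nsum (h + 3) := by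
    rw [← hcast]
    exact sum_F_eq (h + 3) (K + 1) hK2
  have h3 : ∑ k ∈ range (K + 1), F (h : ℚ) k = Nsum h := sum_F_eq h (K + 1) (by omega)
  have h4 : G (h : ℚ) K = 0 := by
    unfold G
    rw [← hcast, P_eq_zero (h + 3) (2 * (K + 1)) hK2]
    simp
  rw [h2, h3, h4] at h1
  linarith

/-- the closed form -/
def Mv (h : ℕ) : ℚ := (-1) ^ h * (2 * h * (h.factorial : ℚ)) / Pi (h : ℚ) h

lemma Mv_rec (h : ℕ) (hh : 1 ≤ h) : Mv (h + 3) = rho h * Mv h := by
  unfold Mv rho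
  have hcast : ((h + 3 : ℕ) : ℚ) = (h : ℚ) + 3 := by push_cast; ring
  have h1 : Pi ((h + 3 : ℕ) : ℚ) (h + 3)
      = ((2 * (h : ℚ) + 4) * (2 * h + 1) * (h + 2)) * Pi (h : ℚ) h := by
    have e : h + 3 = h + 1 + 2 := by ring
    rw [hcast]
    conv_lhs => rw [e]
    rw [Pi_shift, Pi_succ]
    ring
  rw [h1, div_eq_mul_inv, div_eq_mul_inv _ (Pi (h : ℚ) h), mul_inv]
  have hpos : (h : ℚ) ≠ 0 := by
    have : 0 < h := hh
    positivity
  have hf : ((h + 3).factorial : ℚ) = ((h : ℚ) + 3) * (h + 2) * (h + 1) * (h.factorial : ℚ) := by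
    rw [Nat.factorial_succ, Nat.factorial_succ, Nat.factorial_succ]
    push_cast
    ring
  rw [hf, hcast]
  have n1 : 2 * (h : ℚ) + 4 ≠ 0 := by positivity
  have n2 : 2 * (h : ℚ) + 1 ≠ 0 := by positivity
  have n3 : (h : ℚ) + 2 ≠ 0 := by positivity
  rw [pow_add]
  field_simp
  ring

lemma closed (h : ℕ) (hh : 1 ≤ h) : Nsum h = if h % 3 = 1 then 0 else Mv h := by
  induction h using Nat.strong_induction_on with
  | _ h ih =>
    rcases Nat.lt_or_ge h 11 with hlt | hge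
    · interval_cases h <;>
        norm_num [Nsum, Mv, F, P, Pi, sum_range_succ, prod_range_succ, Nat.factorial]
    · obtain ⟨m, rfl⟩ : ∃ m, h = m + 3 := ⟨h - 3, by omega⟩
      have h1 := ih m (by omega) (by omega)
      rw [Nsum_rec m (by omega), h1]
      have hmod : (m + 3) % 3 = m % 3 := by omega
      rw [hmod]
      split_ifs with h3
      · simp
      · exact (Mv_rec m (by omega)).symm

end Pool.Agent.Lib.MP_37e900_nt
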